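import Pool.Agent.Helper16.Abund.Trace3
import Pool.Agent.Helper16.Abund.Defs2
import Pool.Agent.Helper16.Abund.Semi

/-!
Packet S2 of MP_97d78d_ag: the trace over a fibre modulo a group.
-/

open scoped Manifold ContDiff ENNReal Topology ComplexConjugate ComplexOrder
open MeasureTheory Metric
open Pool.Agent.Helper49.Abund (mean_rpow)

namespace Pool.Agent.Helper88.Abund

open Pool.Agent.Helper16.Abund

variable {n : ℕ} {X Y : Type*} [TopologicalSpace X] [ChartedSpace (Fin n → ℂ) X]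
    [TopologicalSpace Y] [ChartedSpace (Fin n → ℂ) Y]

/-- the group `H` acts along the fibres of `p`, and `F` is a fundamental set -/
structure Trv {X Y : Type*} [TopologicalSpace X] [TopologicalSpace Y] (p : Y → X) {H : Type*}
    [AddGroup H] (T : H → Y → Y) (F : Set Y) : Prop where
  zero : ∀ y, T 0 y = y
  add : ∀ h h' y, T (h + h') y = T h (T h' y)
  cont : ∀ h, Continuous (T h)
  proj : ∀ h y, p (T h y) = p y
  uniq : ∀ y, ∃! h : H, T h y ∈ F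

theorem exists_sheets_pre {p : Y → X} (hcov : IsCoveringMap p)
    (hloc : IsLocalDiffeomorph 𝓘(ℂ, Fin n → ℂ) 𝓘(ℂ, Fin n → ℂ) ω p) (x₀ : X) :
    ∃ U σ, Sheets (n := n) p x₀ U σ ∧ IsPreconnected U := by
  obtain ⟨U, σ, S⟩ := exists_sheets (n := n) hcov hloc x₀
  set χ := chartAt (Fin n → ℂ) x₀ with hχ
  have hx₀s : x₀ ∈ χ.source := mem_chart_source _ x₀
  have hopen : IsOpen (χ.target ∩ χ.symm ⁻¹' U) := χ.isOpen_inter_preimage_symm S.isOpen
  have hmem : χ x₀ ∈ χ.target ∩ χ.symm ⁻¹' U := by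
    refine ⟨χ.map_source hx₀s, ?_⟩
    rw [Set.mem_preimage, χ.left_inv hx₀s]
    exact S.mem
  obtain ⟨r, hr, hsub⟩ := Metric.isOpen_iff.1 hopen _ hmem
  have him : χ.symm '' ball (χ x₀) r = χ.source ∩ χ ⁻¹' ball (χ x₀) r := by
    ext x
    constructor
    · rintro ⟨z, hz, rfl⟩
      have ht : z ∈ χ.target := (hsub hz).1
      exact ⟨χ.map_target ht, by rw [Set.mem_preimage, χ.right_inv ht]; exact hz⟩
    · rintro ⟨hx, hx2⟩
      exact ⟨χ x, hx2, χ.left_inv hx⟩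
  have hUU : χ.symm '' ball (χ x₀) r ⊆ U := by
    rintro _ ⟨z, hz, rfl⟩
    exact (hsub hz).2
  refine ⟨χ.symm '' ball (χ x₀) r, σ, ⟨?_, ?_, ?_, ?_, ?_, S.base⟩, ?_⟩
  · rw [him]
    exact χ.isOpen_inter_preimage isOpen_ball
  · exact ⟨χ x₀, mem_ball_self hr, χ.left_inv hx₀s⟩
  · exact fun i => (S.mdiff i).mono hUU
  · exact fun i x hx => S.sect i x (hUU hx)
  · exact fun y hy => S.uniq y (hUU hy)
  · exact (convex_ball _ _).isPreconnected.image _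
      (χ.continuousOn_symm.mono fun z hz => (hsub hz).1)

section trv

variable {p : Y → X} {H : Type*} [AddGroup H] {T : H → Y → Y} {F : Set Y}
  (D : Trv p T F) {x₀ : X} {U : Set X} {σ : (p ⁻¹' {x₀}) → X → Y}

include D

/-- translate of a point of the fibre -/
def trans (h : H) (i : p ⁻¹' {x₀}) : p ⁻¹' {x₀} :=
  ⟨T h i, by
    have h1 : p (i : Y) = x₀ := i.2
    show p (T h i) = x₀
    rw [D.proj, h1]⟩

theorem sheet_trans (hcov : IsCoveringMap p) (S : Sheets (n := n) p x₀ U σ)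
    (hU : IsPreconnected U) (h : H) (i : p ⁻¹' {x₀}) {x : X} (hx : x ∈ U) :
    T h (σ i x) = σ (trans D h i) x := by
  have h1 : ContinuousOn (fun x => T h (σ i x)) U :=
    (D.cont h).comp_continuousOn (S.mdiff i).continuousOn
  have h2 : ContinuousOn (σ (trans D h i)) U := (S.mdiff _).continuousOn
  refine hcov.eqOn_of_comp_eqOn hU h1 h2 ?_ S.mem ?_ hx
  · intro x hx
    simp only [Function.comp]
    rw [D.proj, S.sect i x hx, S.sect _ x hx]
  · rw [S.base, S.base]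
    rfl

omit [AddGroup H] D in
theorem sheet_inj (S : Sheets (n := n) p x₀ U σ) {x : X} (hx : x ∈ U) {i j : p ⁻¹' {x₀}}
    (hij : σ i x = σ j x) : i = j := by
  apply (S.equiv hx).injective
  apply Subtype.ext
  rw [S.equiv_apply, S.equiv_apply]
  exact hij

theorem bij_trv (hcov : IsCoveringMap p) (S : Sheets (n := n) p x₀ U σ)
    (hU : IsPreconnected U) {x : X} (hx : x ∈ U) :
    ∃ e : {i : p ⁻¹' {x₀} // (i : Y) ∈ F} ≃ {y : p ⁻¹' {x} // (y : Y) ∈ F},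
      ∀ j, ∃ h : H, ((e j : p ⁻¹' {x}) : Y) = T h (σ j.1 x) := by
  classical
  let hh : Y → H := fun y => (D.uniq y).choose
  have hhF : ∀ y, T (hh y) y ∈ F := fun y => (D.uniq y).choose_spec.1
  have hhu : ∀ y h, T h y ∈ F → h = hh y := fun y h hy => (D.uniq y).choose_spec.2 h hy
  let f : {i : p ⁻¹' {x₀} // (i : Y) ∈ F} → {y : p ⁻¹' {x} // (y : Y) ∈ F} := fun j =>
    ⟨⟨T (hh (σ j.1 x)) (σ j.1 x), by
      show p (T (hh (σ j.1 x)) (σ j.1 x)) = x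
      rw [D.proj, S.sect j.1 x hx]⟩, hhF _⟩
  have hneg : ∀ h y, T (-h) (T h y) = y := by
    intro h y
    rw [← D.add, neg_add_cancel, D.zero]
  have hf : Function.Bijective f := by
    constructor
    · intro j j' hjj
      have h1 : T (hh (σ j.1 x)) (σ j.1 x) = T (hh (σ j'.1 x)) (σ j'.1 x) :=
        congrArg (fun y : {y : p ⁻¹' {x} // (y : Y) ∈ F} => ((y : p ⁻¹' {x}) : Y)) hjj
      set a := hh (σ j.1 x) with ha
      set b := hh (σ j'.1 x) with hb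
      rw [sheet_trans D hcov S hU a j.1 hx, sheet_trans D hcov S hU b j'.1 hx] at h1
      have h2 := sheet_inj S hx h1
      have h3 : T a (j.1 : Y) = T b (j'.1 : Y) := congrArg Subtype.val h2
      have h4 : (j.1 : Y) = T (-a + b) (j'.1 : Y) := by
        rw [D.add, ← h3, hneg]
      have h5 : T (-a + b) (j'.1 : Y) ∈ F := by
        rw [← h4]
        exact j.2
      have h6 : T 0 (j'.1 : Y) ∈ F := by
        rw [D.zero]
        exact j'.2
      have h7 := (hhu _ _ h5).trans (hhu _ _ h6).symm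
      rw [h7, D.zero] at h4
      exact Subtype.ext (Subtype.ext h4)
    · rintro ⟨y, hy⟩
      obtain ⟨i, hi⟩ := (S.equiv hx).surjective y
      have hi' : σ i x = (y : Y) := by rw [← hi, S.equiv_apply]
      set h := hh (i : Y) with hh'
      have hiF : T h (i : Y) ∈ F := hhF _
      refine ⟨⟨trans D h i, hiF⟩, ?_⟩
      apply Subtype.ext
      apply Subtype.ext
      show T (hh (σ (trans D h i) x)) (σ (trans D h i) x) = (y : Y)
      rw [← sheet_trans D hcov S hU h i hx, hi']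
      have h8 : T (-h) (T h (y : Y)) ∈ F := by
        rw [hneg]
        exact hy
      rw [← hhu _ _ h8, hneg]
  exact ⟨Equiv.ofBijective f hf, fun j => ⟨_, rfl⟩⟩

theorem tsum_trv (hcov : IsCoveringMap p) (S : Sheets (n := n) p x₀ U σ)
    (hU : IsPreconnected U) {x : X} (hx : x ∈ U) {M : Type*} [AddCommMonoid M]
    [TopologicalSpace M] (G : Y → M) (hG : ∀ h y, G (T h y) = G y) :
    ∑' y : p ⁻¹' {x}, F.indicator G y =
      ∑' j : {i : p ⁻¹' {x₀} // (i : Y) ∈ F}, G (σ j.1 x) := by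
  classical
  obtain ⟨e, he⟩ := bij_trv D hcov S hU hx
  have h1 : ∑' y : p ⁻¹' {x}, F.indicator G y =
      ∑' y : p ⁻¹' {x}, ({y : p ⁻¹' {x} | (y : Y) ∈ F} : Set (p ⁻¹' {x})).indicator
        (fun y => G y) y := by
    congr 1
  rw [h1, ← tsum_subtype]
  have h2 := e.tsum_eq (fun y : {y : p ⁻¹' {x} // (y : Y) ∈ F} => G ((y : p ⁻¹' {x}) : Y))
  refine Eq.trans ?_ (h2.symm.trans ?_)
  · rfl
  · congr 1
    funext j
    obtain ⟨h, hj⟩ := he j
    rw [hj, hG]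

end trv

/-- Uniform bound for the sheets through the fundamental set. -/
theorem exists_bound_trv [IsManifold 𝓘(ℂ, Fin n → ℂ) ω X] {p : Y → X}
    (hcov : IsCoveringMap p)
    (hloc : IsLocalDiffeomorph 𝓘(ℂ, Fin n → ℂ) 𝓘(ℂ, Fin n → ℂ) ω p) {m : ℕ} {η : Y → ℂ}
    (hη : IsPluriForm n Y m η) {H : Type*} [AddGroup H] {T : H → Y → Y} {F : Set Y}
    (D : Trv p T F)
    (hinv : ∀ h y, η (T h y) / jac n p (T h y) ^ m = η y / jac n p y ^ m)
    {q : ℝ} (hq : 0 < q) (hLq : FibreLqOn n p m q η F) {x₀ : X}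
    {U : Set X} {σ : (p ⁻¹' {x₀}) → X → Y} (S : Sheets (n := n) p x₀ U σ)
    (hUc : IsPreconnected U) :
    ∃ r : ℝ, 0 < r ∧ ∃ u : {i : p ⁻¹' {x₀} // (i : Y) ∈ F} → ℝ, Summable u ∧ (∀ i, 0 ≤ u i) ∧
      ∀ z ∈ ball (chartAt (Fin n → ℂ) x₀ x₀) r, z ∈ (chartAt (Fin n → ℂ) x₀).target ∧
        (chartAt (Fin n → ℂ) x₀).symm z ∈ U ∧
        ∀ i : {i : p ⁻¹' {x₀} // (i : Y) ∈ F},
          ‖η (σ i.1 ((chartAt (Fin n → ℂ) x₀).symm z)) *
          jac n (fun w => σ i.1 ((chartAt (Fin n → ℂ) x₀).symm w)) z ^ m‖ ^ q ≤ u i := by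
  classical
  set χ := chartAt (Fin n → ℂ) x₀ with hχ
  obtain ⟨r₀, hr₀, hsub, hint⟩ := hLq x₀
  rw [← hχ] at hsub hint
  -- a smaller ball mapped into `U`
  have hx₀s : x₀ ∈ χ.source := mem_chart_source _ x₀
  have hopen : IsOpen (χ.target ∩ χ.symm ⁻¹' U) := χ.isOpen_inter_preimage_symm S.isOpen
  have hmem : χ x₀ ∈ χ.target ∩ χ.symm ⁻¹' U := by
    refine ⟨χ.map_source hx₀s, ?_⟩
    rw [Set.mem_preimage, χ.left_inv hx₀s]
    exact S.mem
  obtain ⟨r₁, hr₁, hsub₁⟩ := Metric.isOpen_iff.1 hopen _ hmem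
  set r : ℝ := min r₀ r₁ / 2 with hr
  have hrpos : 0 < r := by rw [hr]; positivity
  have h2r0 : 2 * r ≤ r₀ := by rw [hr]; linarith [min_le_left r₀ r₁]
  have h2r1 : 2 * r ≤ r₁ := by rw [hr]; linarith [min_le_right r₀ r₁]
  let g : {i : p ⁻¹' {x₀} // (i : Y) ∈ F} → (Fin n → ℂ) → ℂ := fun i z =>
    η (σ i.1 (χ.symm z)) * jac n (fun w => σ i.1 (χ.symm w)) z ^ m
  have hB2 : ∀ z ∈ ball (χ x₀) (2 * r), z ∈ χ.target ∧ χ.symm z ∈ U := by
    intro z hz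
    exact hsub₁ (ball_subset_ball h2r1 hz)
  have hg : ∀ i, DifferentiableOn ℂ (g i) (ball (χ x₀) (2 * r)) := by
    intro i
    exact hη.sheet S i.1 isOpen_ball ((mdiff_chart_symm x₀).mono fun z hz => (hB2 z hz).1)
      fun z hz => (hB2 z hz).2
  -- the integrand over the ball
  have hpt : ∀ z ∈ ball (χ x₀) (2 * r), ∑' y : p ⁻¹' {χ.symm z}, F.indicator (fun y =>
      ENNReal.ofReal (‖η y * (jac n χ.symm z / jac n p y) ^ m‖ ^ q)) y.1 =
      ∑' i, ENNReal.ofReal (‖g i z‖ ^ q) := by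
    intro z hz
    rw [tsum_trv D hcov S hUc (hB2 z hz).2 (fun y => ENNReal.ofReal
      (‖η y * (jac n χ.symm z / jac n p y) ^ m‖ ^ q)) (by
        intro h y
        have e1 : ∀ y, η y * (jac n χ.symm z / jac n p y) ^ m =
            jac n χ.symm z ^ m * (η y / jac n p y ^ m) := by
          intro y
          rw [div_pow]
          ring
        simp only [e1, hinv])]
    congr 1
    funext i
    have : jac n (fun w => σ i.1 (χ.symm w)) z = jac n χ.symm z / jac n p (σ i.1 (χ.symm z)) :=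
      S.jac_comp_sheet hloc i.1 ((mdiff_chart_symm x₀).mdifferentiableAt
        (χ.open_target.mem_nhds (hB2 z hz).1)) (hB2 z hz).2
    simp only [g, this]
  let J : {i : p ⁻¹' {x₀} // (i : Y) ∈ F} → ℝ≥0∞ := fun i =>
    ∫⁻ z in ball (χ x₀) (2 * r), ENNReal.ofReal (‖g i z‖ ^ q)
  have hmeas : ∀ i, AEMeasurable (fun z => ENNReal.ofReal (‖g i z‖ ^ q))
      (volume.restrict (ball (χ x₀) (2 * r))) := by
    intro i
    have h1 : ContinuousOn (fun z => ‖g i z‖ ^ q) (ball (χ x₀) (2 * r)) := by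
      apply ContinuousOn.rpow_const
      · exact (hg i).continuousOn.norm
      · intro z _
        exact Or.inr hq.le
    exact (h1.aemeasurable measurableSet_ball).ennreal_ofReal
  have hJ : ∑' i, J i < ⊤ := by
    refine lt_of_le_of_lt ?_ hint
    have hle : ∑' i, J i ≤ ∫⁻ z in ball (χ x₀) (2 * r), ∑' i, ENNReal.ofReal (‖g i z‖ ^ q) := by
      rw [ENNReal.tsum_eq_iSup_sum]
      apply iSup_le
      intro s
      rw [← lintegral_finsetSum' s fun i _ => hmeas i]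
      apply lintegral_mono
      intro z
      exact ENNReal.sum_le_tsum s
    refine hle.trans ?_
    calc ∫⁻ z in ball (χ x₀) (2 * r), ∑' i, ENNReal.ofReal (‖g i z‖ ^ q)
        = ∫⁻ z in ball (χ x₀) (2 * r), ∑' y : p ⁻¹' {χ.symm z}, F.indicator (fun y =>
            ENNReal.ofReal (‖η y * (jac n χ.symm z / jac n p y) ^ m‖ ^ q)) y.1 := by
          apply setLIntegral_congr_fun measurableSet_ball
          intro z hz
          exact (hpt z hz).symm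
      _ ≤ _ := lintegral_mono_set (ball_subset_ball h2r0)
  set v : ℝ≥0∞ := volume (ball (χ x₀) r) with hv
  have hv0 : v ≠ 0 := (volume_ball_pos _ hrpos).ne'
  have hvt : v ≠ ⊤ := measure_ball_lt_top.ne
  have hJi : ∀ i, J i ≠ ⊤ := fun i => ((ENNReal.le_tsum i).trans_lt hJ).ne
  refine ⟨r, hrpos, fun i => (J i / v).toReal, ?_, fun i => ENNReal.toReal_nonneg, ?_⟩
  · apply ENNReal.summable_toReal
    have : ∑' i, J i / v = (∑' i, J i) / v := by
      simp only [div_eq_mul_inv]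
      rw [ENNReal.tsum_mul_right]
    rw [this]
    exact (ENNReal.div_lt_top hJ.ne hv0).ne
  · intro z hz
    have hz2 : z ∈ ball (χ x₀) (2 * r) := ball_subset_ball (by linarith) hz
    refine ⟨(hB2 z hz2).1, (hB2 z hz2).2, ?_⟩
    intro i
    change ‖g i z‖ ^ q ≤ (J i / v).toReal
    have hsubz : ball z r ⊆ ball (χ x₀) (2 * r) := by
      apply ball_subset_ball'
      have := (mem_ball.1 hz).le
      linarith
    have h1 := mean_rpow hrpos ((hg i).mono hsubz) hq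
    rw [volume_ball_eq z (χ x₀) r, ← hv] at h1
    have h2 : ENNReal.ofReal (‖g i z‖ ^ q) * v ≤ J i := h1.trans (lintegral_mono_set hsubz)
    have h3 : ENNReal.ofReal (‖g i z‖ ^ q) ≤ J i / v := by
      rw [ENNReal.le_div_iff_mul_le (Or.inl hv0) (Or.inl hvt)]
      exact h2
    have h4 : J i / v ≠ ⊤ := (ENNReal.div_lt_top (hJi i) hv0).ne
    exact (ENNReal.ofReal_le_iff_le_toReal h4).1 h3

/-- the trace of the `k`-th power of `η` under `p`, over the points of `F` -/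
noncomputable def traceF (n : ℕ) {X Y : Type*} [TopologicalSpace X]
    [ChartedSpace (Fin n → ℂ) X] [TopologicalSpace Y] [ChartedSpace (Fin n → ℂ) Y] (p : Y → X)
    (m k : ℕ) (η : Y → ℂ) (F : Set Y) (x : X) : ℂ :=
  ∑' y : p ⁻¹' {x}, F.indicator (fun y => (η y / jac n p y ^ m) ^ k) y

theorem traceF_mul_jac {p : Y → X} (hcov : IsCoveringMap p)
    (hloc : IsLocalDiffeomorph 𝓘(ℂ, Fin n → ℂ) 𝓘(ℂ, Fin n → ℂ) ω p) {m : ℕ} {η : Y → ℂ}
    {H : Type*} [AddGroup H] {T : H → Y → Y} {F : Set Y} (D : Trv p T F)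
    (hinv : ∀ h y, η (T h y) / jac n p (T h y) ^ m = η y / jac n p y ^ m)
    {x₀ : X} {U : Set X} {σ : (p ⁻¹' {x₀}) → X → Y} (S : Sheets (n := n) p x₀ U σ)
    (hUc : IsPreconnected U)
    (k : ℕ) {ψ : (Fin n → ℂ) → X} {z : Fin n → ℂ}
    (hψ : MDifferentiableAt 𝓘(ℂ, Fin n → ℂ) 𝓘(ℂ, Fin n → ℂ) ψ z) (hz : ψ z ∈ U) :
    traceF n p m k η F (ψ z) * jac n ψ z ^ (m * k) =
      ∑' i : {i : p ⁻¹' {x₀} // (i : Y) ∈ F},
        (η (σ i.1 (ψ z)) * jac n (fun w => σ i.1 (ψ w)) z ^ m) ^ k := by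
  unfold traceF
  rw [tsum_trv D hcov S hUc hz (fun y => (η y / jac n p y ^ m) ^ k) (by
    intro h y
    simp only [hinv]), ← tsum_mul_right]
  congr 1
  funext i
  rw [S.jac_comp_sheet hloc i.1 hψ hz, pow_mul, ← mul_pow]
  congr 1
  rw [div_pow]
  ring

theorem isPluriForm_traceF [IsManifold 𝓘(ℂ, Fin n → ℂ) ω X] {p : Y → X}
    (hcov : IsCoveringMap p)
    (hloc : IsLocalDiffeomorph 𝓘(ℂ, Fin n → ℂ) 𝓘(ℂ, Fin n → ℂ) ω p) {m : ℕ} {η : Y → ℂ}
    (hη : IsPluriForm n Y m η) {H : Type*} [AddGroup H] {T : H → Y → Y} {F : Set Y}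
    (D : Trv p T F)
    (hinv : ∀ h y, η (T h y) / jac n p (T h y) ^ m = η y / jac n p y ^ m)
    {q : ℝ} (hq : 0 < q) (hLq : FibreLqOn n p m q η F) {k : ℕ}
    (hk : q ≤ k) : IsPluriForm n X (m * k) (traceF n p m k η F) := by
  classical
  intro V ψ hV hψ z₀ hz₀
  set x₀ := ψ z₀ with hx₀
  obtain ⟨U, σ, S, hUc⟩ := exists_sheets_pre (n := n) hcov hloc x₀
  obtain ⟨r, hr, u, hu, hu0, hb⟩ := exists_bound_trv hcov hloc hη D hinv hq hLq S hUc
  set χ := chartAt (Fin n → ℂ) x₀ with hχ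
  have hψc : ContinuousAt ψ z₀ := (hψ.mdifferentiableAt (hV.mem_nhds hz₀)).continuousAt
  -- the open set where everything is defined
  have hsrc : ∀ᶠ z in 𝓝 z₀, ψ z ∈ χ.source :=
    hψc.preimage_mem_nhds (χ.open_source.mem_nhds (mem_chart_source _ x₀))
  have hUn : ∀ᶠ z in 𝓝 z₀, ψ z ∈ U := hψc.preimage_mem_nhds (S.isOpen.mem_nhds S.mem)
  obtain ⟨V₁, hV₁sub, hV₁o, hz₀V₁⟩ := _root_.mem_nhds_iff.1
    (Filter.inter_mem (hV.mem_nhds hz₀) (hsrc.and hUn))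
  have hψ₁ : MDifferentiableOn 𝓘(ℂ, Fin n → ℂ) 𝓘(ℂ, Fin n → ℂ) ψ V₁ :=
    hψ.mono fun z hz => (hV₁sub hz).1
  have hψat : ∀ z ∈ V₁, MDifferentiableAt 𝓘(ℂ, Fin n → ℂ) 𝓘(ℂ, Fin n → ℂ) ψ z :=
    fun z hz => hψ₁.mdifferentiableAt (hV₁o.mem_nhds hz)
  have hχat : ∀ z ∈ V₁, MDifferentiableAt 𝓘(ℂ, Fin n → ℂ) 𝓘(ℂ, Fin n → ℂ) χ (ψ z) :=
    fun z hz => (mdiff_chart x₀).mdifferentiableAt (χ.open_source.mem_nhds (hV₁sub hz).2.1)
  have hχψ : ∀ z ∈ V₁, MDifferentiableAt 𝓘(ℂ, Fin n → ℂ) 𝓘(ℂ, Fin n → ℂ) (χ ∘ ψ) z :=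
    fun z hz => (hχat z hz).comp z (hψat z hz)
  have hh : DifferentiableOn ℂ (χ ∘ ψ) V₁ := fun z hz =>
    (hχψ z hz).differentiableAt.differentiableWithinAt
  obtain ⟨C, hC, hCb⟩ := exists_jac_bound hV₁o hh hz₀V₁
  have hballn : ∀ᶠ z in 𝓝 z₀, (χ ∘ ψ) z ∈ ball (χ x₀) r :=
    (hχψ z₀ hz₀V₁).continuousAt.preimage_mem_nhds (isOpen_ball.mem_nhds (mem_ball_self hr))
  obtain ⟨W, hWsub, hWo, hz₀W⟩ := _root_.mem_nhds_iff.1
    (Filter.inter_mem (hV₁o.mem_nhds hz₀V₁) (hCb.and hballn))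
  -- the summands
  let Hs : {i : p ⁻¹' {x₀} // (i : Y) ∈ F} → (Fin n → ℂ) → ℂ := fun i z =>
    (η (σ i.1 (ψ z)) * jac n (fun w => σ i.1 (ψ w)) z ^ m) ^ k
  have hHd : ∀ i, DifferentiableOn ℂ (Hs i) W := by
    intro i
    exact (hη.sheet S i.1 hWo (hψ₁.mono fun z hz => (hWsub hz).1)
      fun z hz => (hV₁sub (hWsub hz).1).2.2).pow k
  have hHb : ∀ i, ∀ z ∈ W, ‖Hs i z‖ ≤ C ^ (m * k) * u i ^ ((k : ℝ) / q) := by
    intro i z hz
    have hzV := (hWsub hz).1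
    have hzs := (hV₁sub hzV).2.1
    have hzU := (hV₁sub hzV).2.2
    have hzb : χ (ψ z) ∈ ball (χ x₀) r := (hWsub hz).2.2
    obtain ⟨ht, hU', hbi⟩ := hb _ hzb
    rw [χ.left_inv hzs] at hU'
    have hb' := hbi i
    rw [χ.left_inv hzs] at hb'
    -- chain rule
    have e1 : jac n (fun w => σ i.1 (ψ w)) z =
        jac n (fun w => σ i.1 (χ.symm w)) (χ (ψ z)) * jac n (χ ∘ ψ) z := by
      have hs : MDifferentiableAt 𝓘(ℂ, Fin n → ℂ) 𝓘(ℂ, Fin n → ℂ) χ.symm (χ (ψ z)) :=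
        (mdiff_chart_symm x₀).mdifferentiableAt (χ.open_target.mem_nhds ht)
      have hσ : MDifferentiableAt 𝓘(ℂ, Fin n → ℂ) 𝓘(ℂ, Fin n → ℂ) (σ i.1)
          (χ.symm (χ (ψ z))) := by
        rw [χ.left_inv hzs]
        exact (S.mdiff i.1).mdifferentiableAt (S.isOpen.mem_nhds hzU)
      have hc : MDifferentiableAt 𝓘(ℂ, Fin n → ℂ) 𝓘(ℂ, Fin n → ℂ)
          (fun w => σ i.1 (χ.symm w)) ((χ ∘ ψ) z) := hσ.comp _ hs
      refine Eq.trans ?_ (jac_comp hc (hχψ z hzV))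
      apply jac_congr
      filter_upwards [hV₁o.mem_nhds hzV] with w hw
      simp only [Function.comp_apply]
      rw [χ.left_inv (hV₁sub hw).2.1]
    have e2 : Hs i z = (η (σ i.1 (ψ z)) *
        jac n (fun w => σ i.1 (χ.symm w)) (χ (ψ z)) ^ m) ^ k * jac n (χ ∘ ψ) z ^ (m * k) := by
      simp only [Hs]
      rw [e1, mul_pow _ _ m, pow_mul, ← mul_pow _ _ k]
      congr 1
      ring
    rw [e2, norm_mul, norm_pow, norm_pow, mul_comm]
    apply mul_le_mul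
    · exact pow_le_pow_left₀ (norm_nonneg _) (hWsub hz).2.1 _
    · exact norm_pow_le_rpow (norm_nonneg _) hq hb' k
    · positivity
    · positivity
  have hk1 : 1 ≤ (k : ℝ) / q := by rwa [one_le_div hq]
  have hsum : Summable fun i => C ^ (m * k) * u i ^ ((k : ℝ) / q) :=
    (summable_rpow_of_one_le hu hu0 hk1).mul_left _
  have hD := differentiableOn_tsum hWo hHd hsum hHb
  have hDat : DifferentiableAt ℂ (fun z => ∑' i, Hs i z) z₀ :=
    hD.differentiableAt (hWo.mem_nhds hz₀W)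
  have hev : (fun z => traceF n p m k η F (ψ z) * jac n ψ z ^ (m * k)) =ᶠ[𝓝 z₀]
      fun z => ∑' i, Hs i z := by
    filter_upwards [hWo.mem_nhds hz₀W] with z hz
    exact traceF_mul_jac hcov hloc D hinv S hUc k (hψat z (hWsub hz).1)
      (hV₁sub (hWsub hz).1).2.2
  exact (hDat.congr_of_eventuallyEq hev).differentiableWithinAt

/-- summability along the part of the fibre in the fundamental set -/
theorem summable_trv [IsManifold 𝓘(ℂ, Fin n → ℂ) ω X] {p : Y → X}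
    (hcov : IsCoveringMap p)
    (hloc : IsLocalDiffeomorph 𝓘(ℂ, Fin n → ℂ) 𝓘(ℂ, Fin n → ℂ) ω p) {m : ℕ} {η : Y → ℂ}
    (hη : IsPluriForm n Y m η) {H : Type*} [AddGroup H] {T : H → Y → Y} {F : Set Y}
    (D : Trv p T F)
    (hinv : ∀ h y, η (T h y) / jac n p (T h y) ^ m = η y / jac n p y ^ m)
    {q : ℝ} (hq : 0 < q) (hLq : FibreLqOn n p m q η F) {x : X}
    {U : Set X} {σ : (p ⁻¹' {x}) → X → Y} (S : Sheets (n := n) p x U σ)
    (hUc : IsPreconnected U) :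
    Summable fun i : {i : p ⁻¹' {x} // (i : Y) ∈ F} =>
      ‖η (σ i.1 x) / jac n p (σ i.1 x) ^ m‖ ^ q := by
  obtain ⟨r, hr, u, hu, hu0, hb⟩ := exists_bound_trv hcov hloc hη D hinv hq hLq S hUc
  set χ := chartAt (Fin n → ℂ) x with hχ
  obtain ⟨ht, hU', hbi⟩ := hb _ (mem_ball_self hr)
  have hxs : x ∈ χ.source := mem_chart_source _ x
  have hs : MDifferentiableAt 𝓘(ℂ, Fin n → ℂ) 𝓘(ℂ, Fin n → ℂ) χ.symm (χ x) :=
    (mdiff_chart_symm x).mdifferentiableAt (χ.open_target.mem_nhds ht)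
  have hbase : jac n χ.symm (χ x) ≠ 0 := jac_chart_symm_ne_zero x ht
  -- compare
  set J : ℝ := ‖jac n χ.symm (χ x) ^ m‖ ^ q with hJ
  have hJ0 : 0 < J := by
    apply Real.rpow_pos_of_pos
    exact norm_pos_iff.2 (pow_ne_zero _ hbase)
  have hsum : Summable fun i => J⁻¹ * u i := hu.mul_left _
  refine Summable.of_nonneg_of_le (fun i => by positivity) (fun i => ?_) hsum
  have h1 := hbi i
  have hU'' : χ.symm (χ x) ∈ U := hU'
  rw [S.jac_comp_sheet hloc i.1 hs hU'', χ.left_inv hxs] at h1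
  have h2 : η (σ i.1 x) * (jac n χ.symm (χ x) / jac n p (σ i.1 x)) ^ m =
      (η (σ i.1 x) / jac n p (σ i.1 x) ^ m) * jac n χ.symm (χ x) ^ m := by
    rw [div_pow]
    ring
  rw [h2, norm_mul, Real.mul_rpow (norm_nonneg _) (norm_nonneg _), ← hJ] at h1
  rw [inv_mul_eq_div, le_div_iff₀ hJ0]
  exact h1

theorem exists_form_of_transversal {n : ℕ} {X Y : Type*} [TopologicalSpace X]
    [ChartedSpace (Fin n → ℂ) X] [TopologicalSpace Y] [ChartedSpace (Fin n → ℂ) Y]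
    [IsManifold 𝓘(ℂ, Fin n → ℂ) ω X] {p : Y → X} (hcov : IsCoveringMap p)
    (hloc : IsLocalDiffeomorph 𝓘(ℂ, Fin n → ℂ) 𝓘(ℂ, Fin n → ℂ) ω p) {m : ℕ} (hm : 1 ≤ m)
    {η : Y → ℂ} (hη : IsPluriForm n Y m η) {H : Type*} [AddGroup H] (T : H → Y → Y)
    (hT0 : ∀ y, T 0 y = y) (hTadd : ∀ h h' y, T (h + h') y = T h (T h' y))
    (hTc : ∀ h, Continuous (T h)) (hTp : ∀ h y, p (T h y) = p y)
    (hinv : ∀ h y, η (T h y) / jac n p (T h y) ^ m = η y / jac n p y ^ m)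
    {F : Set Y} (hF : ∀ y, ∃! h : H, T h y ∈ F) {q : ℝ} (hq : 0 < q)
    (hLq : FibreLqOn n p m q η F) {y : Y} (hy : η y ≠ 0) :
    ∃ ℓ : ℕ, 1 ≤ ℓ ∧ ∃ c : X → ℂ, IsPluriForm n X ℓ c ∧ c (p y) ≠ 0 := by
  have D : Trv p T F := ⟨hT0, hTadd, hTc, hTp, hF⟩
  obtain ⟨h₀, hh₀, -⟩ := hF y
  set y' := T h₀ y with hy'
  have hpy : p y' = p y := hTp _ _
  have hne : η y' / jac n p y' ^ m ≠ 0 := by
    rw [hy', hinv]
    exact div_ne_zero hy (pow_ne_zero _ (jac_ne_zero hloc y))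
  obtain ⟨U, σ, S, hUc⟩ := exists_sheets_pre (n := n) hcov hloc (p y)
  have hsum := summable_trv hcov hloc hη D hinv hq hLq S hUc
  let i₀ : {i : p ⁻¹' {p y} // (i : Y) ∈ F} := ⟨⟨y', hpy⟩, hh₀⟩
  obtain ⟨k, hk, hkb⟩ := exists_powerSum
    (a := fun i : {i : p ⁻¹' {p y} // (i : Y) ∈ F} =>
      η (σ i.1 (p y)) / jac n p (σ i.1 (p y)) ^ m) hq hsum i₀ (⌈q⌉₊ + 1)
  have hqk : q ≤ k := by
    calc q ≤ (⌈q⌉₊ : ℝ) := Nat.le_ceil q
      _ ≤ ((⌈q⌉₊ + 1 : ℕ) : ℝ) := by push_cast; linarith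
      _ ≤ k := by exact_mod_cast hk
  refine ⟨m * k, ?_, traceF n p m k η F, isPluriForm_traceF hcov hloc hη D hinv hq hLq hqk, ?_⟩
  · exact Nat.mul_pos hm (by omega)
  · have e0 : traceF n p m k η F (p y) = ∑' i : {i : p ⁻¹' {p y} // (i : Y) ∈ F},
        (η (σ i.1 (p y)) / jac n p (σ i.1 (p y)) ^ m) ^ k := by
      unfold traceF
      exact tsum_trv D hcov S hUc S.mem (fun y => (η y / jac n p y ^ m) ^ k) (by
        intro h y
        simp only [hinv])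
    have h1 : 0 < ‖η (σ i₀.1 (p y)) / jac n p (σ i₀.1 (p y)) ^ m‖ ^ k := by
      apply pow_pos
      rw [norm_pos_iff, S.base]
      exact hne
    have h2 : 0 < ‖traceF n p m k η F (p y)‖ := by
      rw [e0]
      have h3 : ‖η (σ i₀.1 (p y)) / jac n p (σ i₀.1 (p y)) ^ m‖ ^ k ≤
        2 * ‖∑' i : {i : p ⁻¹' {p y} // (i : Y) ∈ F},
          (η (σ i.1 (p y)) / jac n p (σ i.1 (p y)) ^ m) ^ k‖ := hkb
      linarith
    exact norm_pos_iff.1 h2

end Pool.Agent.Helper88.Abund
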